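import Pool.Agent.MP_db1c88_nt.zd.VL

/-! Interpolation between an eighth moment on one vertical line and a sup bound on another. -/

set_option autoImplicit false

noncomputable section

namespace Pool.Agent.MP_3d0d30_nt.Off2

open Complex MeasureTheory Set Filter
open Pool.Agent.MP_db1c88_nt.zd

/-- the weight -/
def kk (u : ℝ) : ℝ := 1 / (1 + u ^ 2) ^ 6

theorem kk_pos (u : ℝ) : 0 < kk u := by unfold kk; positivity

theorem kk_cont : Continuous kk :=
  continuous_const.div (by fun_prop) fun u => by positivity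

theorem pow_kk (u : ℝ) : (1 + |u|) ^ 8 * kk u ≤ 16 / (1 + u ^ 2) := by
  have h1 : (1 + |u|) ^ 2 ≤ 2 * (1 + u ^ 2) := by
    rw [← sq_abs u]; nlinarith [sq_nonneg (|u| - 1)]
  have h2 : (1 + |u|) ^ 8 ≤ (2 * (1 + u ^ 2)) ^ 4 := by
    rw [show (1 + |u|) ^ 8 = ((1 + |u|) ^ 2) ^ 4 by ring]; gcongr
  have h3 : 1 ≤ 1 + u ^ 2 := by nlinarith [sq_nonneg u]
  unfold kk
  rw [mul_one_div, div_le_div_iff₀ (by positivity) (by positivity)]
  calc (1 + |u|) ^ 8 * (1 + u ^ 2) ≤ (2 * (1 + u ^ 2)) ^ 4 * (1 + u ^ 2) := by gcongr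
    _ = 16 * (1 + u ^ 2) ^ 5 := by ring
    _ ≤ _ := by gcongr; norm_num

theorem integ {φ : ℝ → ℝ} {D : ℝ} (hc : Continuous φ) (hb : ∀ u, |φ u| ≤ D * (1 + |u|) ^ 8) :
    Integrable fun u => φ u * kk u := by
  refine (integrable_div_one_add_sq (|D| * 16)).mono' (hc.mul kk_cont).aestronglyMeasurable
    (Eventually.of_forall fun u => ?_)
  rw [Real.norm_eq_abs, abs_mul, abs_of_pos (kk_pos u), mul_div_assoc]
  calc |φ u| * kk u ≤ |D| * (1 + |u|) ^ 8 * kk u := by
        gcongr
        · exact (kk_pos u).le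
        · exact (hb u).trans (by gcongr; exact le_abs_self D)
    _ = |D| * ((1 + |u|) ^ 8 * kk u) := by ring
    _ ≤ _ := by gcongr; exact pow_kk u

theorem int_le {φ : ℝ → ℝ} {D : ℝ} (hD : 0 ≤ D) (h0 : ∀ u, 0 ≤ φ u)
    (hb : ∀ u, φ u ≤ D * (1 + |u|) ^ 8) : ∫ u, φ u * kk u ≤ 64 * D := by
  have h1 : ∫ u, φ u * kk u ≤ ∫ u : ℝ, D * 16 * (1 + u ^ 2)⁻¹ := by
    refine integral_mono_of_nonneg (Eventually.of_forall fun u => mul_nonneg (h0 u) (kk_pos u).le)
      (integrable_inv_one_add_sq.const_mul _) (Eventually.of_forall fun u => ?_)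
    calc φ u * kk u ≤ D * (1 + |u|) ^ 8 * kk u := by gcongr; exacts [(kk_pos u).le, hb u]
      _ = D * ((1 + |u|) ^ 8 * kk u) := by ring
      _ ≤ D * (16 / (1 + u ^ 2)) := by gcongr; exact pow_kk u
      _ = _ := by ring
  rw [integral_const_mul, integral_univ_inv_one_add_sq] at h1
  nlinarith [Real.pi_le_four]

/-- one residue step with a free scale -/
theorem step {f : ℂ → ℂ} {a b σ D : ℝ} (ha : a < σ) (hb : σ < b) (hab : b - a ≤ 1)
    (hd : DifferentiableOn ℂ f (strip a b))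
    (hg : ∀ x u : ℝ, a ≤ x → x ≤ b → ‖f (x + u * I)‖ ≤ D * (1 + |u|)) (t L : ℝ) :
    ‖f (σ + t * I)‖ ≤ 4096 * (Real.exp ((a - σ) * L) / (σ - a) *
      (∫ u : ℝ, ‖f (a + (t + u : ℝ) * I)‖ * kk u) + Real.exp ((b - σ) * L) / (b - σ) *
      ∫ u : ℝ, ‖f (b + (t + u : ℝ) * I)‖ * kk u) := by
  have hD : 0 ≤ D := by
    have := (norm_nonneg _).trans (hg a 0 le_rfl (by linarith))
    simpa using this
  set G : ℂ → ℂ := fun w => f (σ + t * I + w) * cexp (w * L) * (4096 / (w + 2) ^ 12) with hG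
  have hne : ∀ w ∈ strip (a - σ) (b - σ), w + 2 ≠ 0 := by
    intro w hw h
    have := congrArg re h
    simp only [add_re, re_ofNat, zero_re] at this
    linarith [hw.1]
  have hGd : DifferentiableOn ℂ G (strip (a - σ) (b - σ)) := by
    refine ((hd.comp (by fun_prop) fun w hw => ?_).mul (by fun_prop)).mul
      ((differentiableOn_const _).div (by fun_prop) fun w hw => pow_ne_zero _ (hne w hw))
    have h1 := hw.1
    have h2 := hw.2
    constructor <;> simp <;> linarith
  have hpt : ∀ x u : ℝ, a - σ ≤ x → x ≤ b - σ →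
      ‖G (x + u * I)‖ ≤ 4096 * Real.exp (x * L) * (‖f ((σ + x : ℝ) + (t + u : ℝ) * I)‖ * kk u) := by
    intro x u h1 h2
    have e1 : (σ : ℂ) + t * I + (x + u * I) = (σ + x : ℝ) + (t + u : ℝ) * I := by
      push_cast; ring
    have e2 : ‖cexp ((x + u * I) * L)‖ = Real.exp (x * L) := by rw [norm_exp]; simp
    have e3 : 1 + u ^ 2 ≤ ‖(x : ℂ) + u * I + 2‖ ^ 2 := by
      rw [Complex.sq_norm, normSq_apply]
      simp
      nlinarith
    have e4 : ‖(4096 : ℂ) / (x + u * I + 2) ^ 12‖ ≤ 4096 * kk u := by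
      rw [norm_div, norm_pow, kk, mul_one_div, show (12 : ℕ) = 2 * 6 from rfl, pow_mul]
      simp only [norm_ofNat]
      gcongr
    simp only [hG]
    rw [norm_mul, norm_mul, e1, e2]
    calc _ ≤ ‖f ((σ + x : ℝ) + (t + u : ℝ) * I)‖ * Real.exp (x * L) * (4096 * kk u) := by gcongr
      _ = _ := by ring
  have hlin : ∀ x u : ℝ, a ≤ x → x ≤ b →
      ‖f (x + (t + u : ℝ) * I)‖ ≤ D * (1 + |t|) * (1 + |u|) ^ 8 := by
    intro x u h1 h2
    refine (hg x _ h1 h2).trans ?_
    have b1 : 1 + |t + u| ≤ (1 + |t|) * (1 + |u|) := by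
      nlinarith [abs_add_le t u, abs_nonneg t, abs_nonneg u]
    have b2 : 1 + |u| ≤ (1 + |u|) ^ 8 := le_self_pow₀ (by linarith [abs_nonneg u]) (by norm_num)
    rw [mul_assoc]
    gcongr
    exact b1.trans (by gcongr)
  have hres := vint_residue (G := G) (C := 4096 * Real.exp |L| * (D * (1 + |t|) * 16))
    (by linarith) (by linarith) hGd (by
      intro x u h1 h2 hu
      have n1 : |u| ≤ ‖(x : ℂ) + u * I‖ := by simpa using abs_im_le_norm ((x : ℂ) + u * I)
      rw [norm_div]
      refine (div_le_self (norm_nonneg _) (hu.trans n1)).trans ((hpt x u h1 h2).trans ?_)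
      have b1 : x * L ≤ |L| := by
        have : |x| ≤ 1 := abs_le.2 ⟨by linarith, by linarith⟩
        calc x * L ≤ |x| * |L| := by rw [← abs_mul]; exact le_abs_self _
          _ ≤ 1 * |L| := by gcongr
          _ = _ := one_mul _
      have b2 := hlin (σ + x) u (by linarith) (by linarith)
      have b3 := pow_kk u
      have b4 := (kk_pos u).le
      rw [mul_div_assoc, mul_div_assoc]
      gcongr 4096 * ?_ * ?_
      · exact Real.exp_le_exp.2 b1
      · calc _ ≤ D * (1 + |t|) * (1 + |u|) ^ 8 * kk u := by gcongr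
          _ = D * (1 + |t|) * ((1 + |u|) ^ 8 * kk u) := by ring
          _ ≤ _ := by gcongr)
  have hline : ∀ x : ℝ, a - σ ≤ x → x ≤ b - σ → x ≠ 0 → ‖vint (fun w => G w / w) x‖ ≤
      4096 * (Real.exp (x * L) / |x| * ∫ u : ℝ, ‖f ((σ + x : ℝ) + (t + u : ℝ) * I)‖ * kk u) := by
    intro x h1 h2 hx
    have hc : Continuous fun u : ℝ => ‖f ((σ + x : ℝ) + (t + u : ℝ) * I)‖ :=
      ((continuous_line hd (x := σ + x) (by linarith) (by linarith)).comp
        (continuous_const.add continuous_id)).norm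
    have hi := integ hc fun u => by
      rw [abs_norm]; exact hlin (σ + x) u (by linarith) (by linarith)
    rw [← mul_assoc, ← integral_const_mul]
    refine norm_integral_le_of_norm_le (hi.const_mul _) (Eventually.of_forall fun u => ?_)
    have n1 : |x| ≤ ‖(x : ℂ) + u * I‖ := by simpa using abs_re_le_norm ((x : ℂ) + u * I)
    have n2 := abs_pos.2 hx
    have n3 := (kk_pos u).le
    rw [norm_div]
    calc _ ≤ 4096 * Real.exp (x * L) * (‖f ((σ + x : ℝ) + (t + u : ℝ) * I)‖ * kk u) / |x| := by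
          gcongr; exact hpt x u h1 h2
      _ = _ := by ring
  have l1 := hline (a - σ) le_rfl (by linarith) (by linarith)
  have l2 := hline (b - σ) (by linarith) le_rfl (by linarith)
  rw [abs_of_neg (by linarith), neg_sub, add_sub_cancel] at l1
  rw [abs_of_pos (by linarith), add_sub_cancel] at l2
  have e0 : G 0 = f (σ + t * I) := by simp only [hG]; norm_num
  have e1 := congrArg norm hres
  rw [e0, norm_mul] at e1
  have e2 : 1 ≤ ‖(2 * Real.pi : ℂ)‖ := by
    rw [norm_mul, norm_real, Real.norm_eq_abs, abs_of_pos Real.pi_pos, norm_ofNat]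
    linarith [Real.two_le_pi]
  have e3 := norm_sub_le (vint (fun w => G w / w) (b - σ)) (vint (fun w => G w / w) (a - σ))
  have e4 := le_mul_of_one_le_left (norm_nonneg (f (σ + t * I))) e2
  linarith

/-- the pointwise interpolation bound -/
theorem point {f : ℂ → ℂ} {a b σ D A : ℝ} (ha : a < σ) (hb : σ < b) (hab : b - a ≤ 1)
    (hd : DifferentiableOn ℂ f (strip a b))
    (hg : ∀ x u : ℝ, a ≤ x → x ≤ b → ‖f (x + u * I)‖ ≤ D * (1 + |u|)) (hA : 0 ≤ A)
    (hA8 : A * (b - σ) ≤ 8 * (b - a)) :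
    ∃ C : ℝ, 0 < C ∧ ∀ t B : ℝ, 1 ≤ B → (∀ u : ℝ, ‖f (b + (t + u : ℝ) * I)‖ ≤ B * (1 + |u|) ^ 8) →
      ‖f (σ + t * I)‖ ^ A ≤ (C * B) ^ A * (1 + ∫ u : ℝ, ‖f (a + (t + u : ℝ) * I)‖ ^ 8 * kk u) := by
  have p1 : 0 < σ - a := by linarith
  have p2 : 0 < b - σ := by linarith
  have p3 : 0 < b - a := by linarith
  have hD : 0 ≤ D := by
    have := (norm_nonneg _).trans (hg a 0 le_rfl (by linarith))
    simpa using this
  refine ⟨4096 * (65 / (σ - a) + 64 / (b - σ)), by positivity, fun t B hB hu => ?_⟩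
  set g := ∫ u : ℝ, ‖f (a + (t + u : ℝ) * I)‖ ^ 8 * kk u with hgdef
  have g0 : 0 ≤ g := integral_nonneg fun u => mul_nonneg (by positivity) (kk_pos u).le
  set m := Real.log (1 + g) / 8 with hm
  have m0 : 0 ≤ m := div_nonneg (Real.log_nonneg (by linarith)) (by norm_num)
  have m8 : Real.exp m ^ 8 = 1 + g := by
    rw [← Real.exp_nat_mul, hm, show ((8 : ℕ) : ℝ) * (Real.log (1 + g) / 8) = Real.log (1 + g) by
      push_cast; ring, Real.exp_log (by linarith)]
  have lp := Real.exp_pos m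
  have hc : Continuous fun u : ℝ => ‖f (a + (t + u : ℝ) * I)‖ :=
    ((continuous_line hd (x := a) le_rfl (by linarith)).comp
      (continuous_const.add continuous_id)).norm
  have hi8 : Integrable fun u : ℝ => ‖f (a + (t + u : ℝ) * I)‖ ^ 8 * kk u := by
    refine integ (D := (D * (1 + |t|)) ^ 8) (hc.pow 8) fun u => ?_
    rw [abs_of_nonneg (by positivity), ← mul_pow]
    gcongr
    refine (hg a _ le_rfl (by linarith)).trans ?_
    rw [mul_assoc]
    gcongr
    nlinarith [abs_add_le t u, abs_nonneg t, abs_nonneg u]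
  have hi1 : Integrable fun u : ℝ => (1 : ℝ) * kk u :=
    integ (D := 1) continuous_const fun u => by
      rw [abs_one, one_mul]; exact one_le_pow₀ (by linarith [abs_nonneg u])
  have k1 := int_le (φ := fun _ => (1 : ℝ)) (D := 1) zero_le_one (fun _ => zero_le_one) fun u => by
    rw [one_mul]; exact one_le_pow₀ (by linarith [abs_nonneg u])
  have ia : ∫ u : ℝ, ‖f (a + (t + u : ℝ) * I)‖ * kk u ≤ 65 * Real.exp m := by
    have h1 : ∫ u : ℝ, ‖f (a + (t + u : ℝ) * I)‖ * kk u ≤ ∫ u : ℝ, (Real.exp m * (1 * kk u) +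
        (Real.exp m ^ 7)⁻¹ * (‖f (a + (t + u : ℝ) * I)‖ ^ 8 * kk u)) := by
      refine integral_mono_of_nonneg
        (Eventually.of_forall fun u => mul_nonneg (norm_nonneg _) (kk_pos u).le)
        ((hi1.const_mul _).add (hi8.const_mul _)) (Eventually.of_forall fun u => ?_)
      have h2 : ∀ y : ℝ, 0 ≤ y → y ≤ Real.exp m + (Real.exp m ^ 7)⁻¹ * y ^ 8 := by
        intro y hy
        rcases le_total y (Real.exp m) with h | h
        · have : 0 ≤ (Real.exp m ^ 7)⁻¹ * y ^ 8 := by positivity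
          linarith
        · have h3 : y ≤ (Real.exp m ^ 7)⁻¹ * y ^ 8 := by
            rw [le_inv_mul_iff₀ (by positivity), pow_succ y 7]
            gcongr
          linarith
      have := mul_le_mul_of_nonneg_right (h2 _ (norm_nonneg (f (a + (t + u : ℝ) * I))))
        (kk_pos u).le
      simp only
      linarith
    rw [integral_add (hi1.const_mul _) (hi8.const_mul _), integral_const_mul (Real.exp m),
      integral_const_mul (Real.exp m ^ 7)⁻¹, ← hgdef] at h1
    have h4 : (Real.exp m ^ 7)⁻¹ * g ≤ Real.exp m := by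
      rw [inv_mul_le_iff₀ (by positivity), ← pow_succ, m8]; linarith
    nlinarith
  have ib := int_le (φ := fun u : ℝ => ‖f (b + (t + u : ℝ) * I)‖) (by linarith : 0 ≤ B)
    (fun _ => norm_nonneg _) hu
  have hs := step ha hb hab hd hg t (m / (b - a))
  set q := (b - σ) * (m / (b - a)) with hq
  have e1 : Real.exp ((a - σ) * (m / (b - a))) * Real.exp m = Real.exp q := by
    rw [← Real.exp_add, hq]; congr 1; field_simp; ring
  have qp := Real.exp_pos q
  have h5 : ‖f (σ + t * I)‖ ≤ 4096 * (65 / (σ - a) + 64 / (b - σ)) * B * Real.exp q := by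
    refine hs.trans ?_
    have c1 : Real.exp ((a - σ) * (m / (b - a))) / (σ - a) *
        (∫ u : ℝ, ‖f (a + (t + u : ℝ) * I)‖ * kk u) ≤ 65 / (σ - a) * B * Real.exp q := by
      calc _ ≤ Real.exp ((a - σ) * (m / (b - a))) / (σ - a) * (65 * Real.exp m) := by gcongr
        _ = 65 / (σ - a) * 1 * Real.exp q := by rw [← e1]; ring
        _ ≤ _ := by gcongr
    have c2 : Real.exp q / (b - σ) * (∫ u : ℝ, ‖f (b + (t + u : ℝ) * I)‖ * kk u) ≤
        64 / (b - σ) * B * Real.exp q := by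
      calc _ ≤ Real.exp q / (b - σ) * (64 * B) := by gcongr
        _ = _ := by ring
    nlinarith
  refine (Real.rpow_le_rpow (norm_nonneg _) h5 hA).trans ?_
  rw [Real.mul_rpow (by positivity) qp.le]
  gcongr
  rw [← Real.exp_mul, ← m8, ← Real.exp_nat_mul, Real.exp_le_exp, hq]
  have : (b - σ) * (m / (b - a)) * A = A * (b - σ) * m / (b - a) := by ring
  rw [this, div_le_iff₀ p3]
  push_cast
  nlinarith

/-- averaging the eighth moment against the weight -/
theorem mean {φ : ℝ → ℝ} {C D e : ℝ} (hc : Continuous φ) (h0 : ∀ t, 0 ≤ φ t)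
    (hb : ∀ t, φ t ≤ D * (1 + |t|) ^ 8) (hev : ∀ t, φ (-t) = φ t) (he0 : 0 ≤ e) (he : e ≤ 8)
    (h : ∀ T : ℝ, 1 ≤ T → ∫ t in (0 : ℝ)..T, φ t ≤ C * T ^ e) {T : ℝ} (hT : 1 ≤ T) :
    IntervalIntegrable (fun t => ∫ u, φ (t + u) * kk u) volume 0 T ∧
      ∫ t in (0 : ℝ)..T, ∫ u, φ (t + u) * kk u ≤ 128 * |C| * T ^ e := by
  have hD : 0 ≤ D := by simpa using (h0 0).trans (hb 0)
  have hi : Integrable (Function.uncurry fun t u : ℝ => φ (t + u) * kk u)
      ((volume.restrict (Ioc 0 T)).prod volume) := by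
    have h1 : Integrable (fun p : ℝ × ℝ => D * (1 + T) ^ 8 * (16 / (1 + p.2 ^ 2)))
        ((volume.restrict (Ioc 0 T)).prod volume) :=
      (integrable_const (D * (1 + T) ^ 8)).mul_prod (integrable_div_one_add_sq 16)
    refine h1.mono' ?_ ?_
    · exact ((hc.comp (continuous_fst.add continuous_snd)).mul
        (kk_cont.comp continuous_snd)).aestronglyMeasurable
    · rw [Measure.restrict_prod_eq_prod_univ]
      refine ae_restrict_of_forall_mem (measurableSet_Ioc.prod MeasurableSet.univ) ?_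
      rintro ⟨t, u⟩ ⟨ht, -⟩
      have b4 := (kk_pos u).le
      have b1 : 1 + |t + u| ≤ (1 + T) * (1 + |u|) := by
        have := abs_of_pos ht.1
        nlinarith [abs_add_le t u, abs_nonneg u, ht.2]
      show ‖φ (t + u) * kk u‖ ≤ _
      rw [Real.norm_eq_abs, abs_of_nonneg (mul_nonneg (h0 _) b4)]
      calc φ (t + u) * kk u ≤ D * ((1 + T) * (1 + |u|)) ^ 8 * kk u := by
            gcongr
            exact (hb _).trans (by gcongr)
        _ = D * (1 + T) ^ 8 * ((1 + |u|) ^ 8 * kk u) := by ring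
        _ ≤ _ := by gcongr; exact pow_kk u
  refine ⟨(intervalIntegrable_iff_integrableOn_Ioc_of_le (by linarith)).2 hi.integral_prod_left, ?_⟩
  rw [intervalIntegral.integral_of_le (by linarith), integral_integral_swap hi]
  have h2 : ∀ u : ℝ, ∫ t in Ioc 0 T, φ (t + u) ≤ 2 * |C| * T ^ e * (1 + |u|) ^ 8 := by
    intro u
    have u0 := abs_nonneg u
    rw [← intervalIntegral.integral_of_le (by linarith), intervalIntegral.integral_comp_add_right]
    have a1 : ∫ t in (0 + u)..(T + u), φ t ≤ ∫ t in (-(T + |u|))..(T + |u|), φ t :=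
      intervalIntegral.integral_mono_interval (by linarith [neg_abs_le u]) (by linarith)
        (by linarith [le_abs_self u]) (Eventually.of_forall h0) (hc.intervalIntegrable _ _)
    have a2 : ∫ t in (-(T + |u|))..0, φ t = ∫ t in (0 : ℝ)..(T + |u|), φ t := by
      have := intervalIntegral.integral_comp_neg (a := 0) (b := T + |u|) φ
      simp only [hev, neg_zero] at this
      exact this.symm
    rw [← intervalIntegral.integral_add_adjacent_intervals (a := -(T + |u|)) (b := 0)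
      (hc.intervalIntegrable _ _) (hc.intervalIntegrable _ _), a2] at a1
    have a3 := h (T + |u|) (by linarith)
    have a4 : (T + |u|) ^ e ≤ T ^ e * (1 + |u|) ^ 8 := by
      calc (T + |u|) ^ e ≤ (T * (1 + |u|)) ^ e := by gcongr; nlinarith
        _ = T ^ e * (1 + |u|) ^ e := Real.mul_rpow (by linarith) (by linarith)
        _ ≤ _ := by
          gcongr
          exact_mod_cast Real.rpow_le_rpow_of_exponent_le (by linarith : 1 ≤ 1 + |u|) he
    have a5 : C * (T + |u|) ^ e ≤ |C| * (T ^ e * (1 + |u|) ^ 8) :=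
      mul_le_mul (le_abs_self C) a4 (by positivity) (abs_nonneg C)
    linarith
  simp only [integral_mul_const]
  refine (int_le (D := 2 * |C| * T ^ e) (by positivity)
    (fun u => integral_nonneg fun t => h0 _) h2).trans (le_of_eq ?_)
  ring

end Pool.Agent.MP_3d0d30_nt.Off2
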