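import Pool.Agent.MP_3d0d30_nt.Off2.Conv
import Pool.Agent.MP_3d0d30_nt.Off.Main
import Pool.Agent.MP_db1c88_nt.qrh.top.Final3

/-! Moments of zeta on all lines between the critical line and the line of abscissa one. -/

set_option autoImplicit false

noncomputable section

namespace Pool.Agent.MP_3d0d30_nt.Off2

open Complex MeasureTheory Set Filter
open Pool.Agent.MP_db1c88_nt.zd

theorem growth {b : ℝ} (hb : b < 1) (x u : ℝ) (h1 : 1 / 2 ≤ x) (h2 : x ≤ b) :
    ‖riemannZeta (x + u * I)‖ ≤ (1 / (1 - b) + 2) * (1 + |u|) := by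
  have hre : ((x : ℂ) + u * I).re = x := by simp
  have n1 : 1 - b ≤ ‖(x : ℂ) + u * I - 1‖ := by
    have := abs_re_le_norm ((x : ℂ) + u * I - 1)
    simp only [sub_re, hre, one_re] at this
    linarith [neg_abs_le (x - 1)]
  have hne : (x : ℂ) + u * I ≠ 1 := by
    intro h; rw [h, sub_self, norm_zero] at n1; linarith
  have h3 := norm_zeta_le (by rw [hre]; linarith) hne
  have h4 := norm_line_le x u
  rw [abs_of_pos (by linarith : 0 < x)] at h4
  rw [hre] at h3
  have p : 0 < 1 - b := by linarith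
  have u0 := abs_nonneg u
  have h5 : ‖(x : ℂ) + u * I‖ / ‖(x : ℂ) + u * I - 1‖ ≤ (1 + |u|) / (1 - b) := by
    gcongr; linarith
  have h6 : ‖(x : ℂ) + u * I‖ / x ≤ 2 * (1 + |u|) := by
    rw [div_le_iff₀ (by linarith)]; nlinarith
  calc _ ≤ (1 + |u|) / (1 - b) + 2 * (1 + |u|) := by linarith
    _ = _ := by ring

/-- Lindeloef size to the right of a zero-free abscissa -/
theorem lindel {θ b ε : ℝ} (h0 : 1 / 2 ≤ θ) (hz : ∀ s : ℂ, θ < s.re → riemannZeta s ≠ 0)
    (h1 : θ < b) (h2 : b < 1) (hε : 0 < ε) :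
    ∃ C : ℝ, 1 ≤ C ∧ ∀ v : ℝ, ‖riemannZeta (b + v * I)‖ ≤ C * (1 + |v|) ^ ε := by
  obtain ⟨Z, Z0, hZ⟩ := Pool.Agent.MP_db1c88_nt.zeta_two_sided (σ₀ := 2) (by norm_num)
  set η := min (b - θ) (min (1 / 2) ε) with hη
  have e1 : η ≤ b - θ := min_le_left _ _
  have e2 : η ≤ 1 / 2 := (min_le_right _ _).trans (min_le_left _ _)
  have e3 : η ≤ ε := (min_le_right _ _).trans (min_le_right _ _)
  have e0 : 0 < η := lt_min (by linarith) (lt_min (by norm_num) hε)
  obtain ⟨C, C0, hC⟩ := Pool.Agent.MP_db1c88_nt.QRH.LfBc.core η (Z + 1) e0 e2 (by linarith)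
  have p : 0 < 1 - b := by linarith
  refine ⟨1 + (1 / (1 - b) + 2) * 4 + Real.exp C * 15, by
    have : 0 ≤ (1 / (1 - b) + 2) * 4 + Real.exp C * 15 := by positivity
    linarith, fun v => ?_⟩
  have v0 := abs_nonneg v
  have w1 : 1 ≤ (1 + |v|) ^ ε := Real.one_le_rpow (by linarith) hε.le
  have q1 : 0 ≤ (1 / (1 - b) + 2) * 4 := by positivity
  have q2 : 0 ≤ Real.exp C * 15 := by positivity
  rcases le_total |v| 3 with hv | hv
  · have := growth h2 b v (by linarith) le_rfl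
    have a : (1 / (1 - b) + 2) * (1 + |v|) ≤ (1 / (1 - b) + 2) * 4 := by gcongr; linarith
    nlinarith
  have hball : ∀ s ∈ Metric.ball (0 : ℂ) (5 / 2 - θ), θ < (5 / 2 + v * I + s : ℂ).re ∧
      1 ≤ ‖(5 / 2 + v * I + s : ℂ) - 1‖ ∧ ‖(5 / 2 + v * I + s : ℂ)‖ ≤ |v| + 5 := by
    intro s hs
    rw [mem_ball_zero_iff] at hs
    have r1 := abs_le.1 (abs_re_le_norm s)
    have r2 := abs_im_le_norm s
    refine ⟨by simp; linarith [r1.1], ?_, ?_⟩
    · have := abs_im_le_norm ((5 / 2 + v * I + s : ℂ) - 1)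
      simp at this
      have h3 : |v| ≤ |v + s.im| + |s.im| := by
        simpa using abs_sub (v + s.im) s.im
      linarith
    · have h3 := norm_line_le (5 / 2) v
      push_cast at h3
      rw [abs_of_pos (by norm_num : (0 : ℝ) < 5 / 2)] at h3
      linarith [norm_add_le (5 / 2 + v * I : ℂ) s]
  have hne : ∀ s ∈ Metric.ball (0 : ℂ) (5 / 2 - θ), (5 / 2 + v * I + s : ℂ) ≠ 1 := by
    intro s hs h
    have := (hball s hs).2.1
    rw [h, sub_self, norm_zero] at this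
    linarith
  have key := (hC (fun s => riemannZeta (5 / 2 + v * I + s)) (5 / 2 - θ)
    (Real.log (15 * (1 + |v|))) (by linarith) (by linarith) (Real.log_nonneg (by linarith))
    (fun s hs => ((differentiableAt_riemannZeta (hne s hs)).comp s
      (by fun_prop)).differentiableWithinAt)
    (fun s hs => hz _ (hball s hs).1)
    (fun s hs => by
      obtain ⟨b1, b2, b3⟩ := hball s hs
      have h3 := norm_zeta_le (by linarith) (hne s hs)
      have h4 := div_le_self (norm_nonneg (5 / 2 + v * I + s : ℂ)) b2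
      have h5 : ‖(5 / 2 + v * I + s : ℂ)‖ / (5 / 2 + v * I + s : ℂ).re ≤ 2 * (|v| + 5) := by
        rw [div_le_iff₀ (by linarith)]; nlinarith
      rw [Real.exp_log (by linarith)]
      linarith)
    (fun s hs => by
      rw [mem_ball_zero_iff] at hs
      have r1 := abs_le.1 (abs_re_le_norm s)
      obtain ⟨z1, z2⟩ := hZ (5 / 2 + v * I + s) (by simp; linarith [r1.1])
      refine ⟨by linarith, ?_⟩
      have z3 : 0 < ‖riemannZeta (5 / 2 + v * I + s)‖ := by
        by_contra h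
        have : ‖riemannZeta (5 / 2 + v * I + s)‖ = 0 := le_antisymm (not_lt.1 h) (norm_nonneg _)
        rw [this] at z2; linarith
      rw [norm_inv, inv_le_iff_one_le_mul₀ z3]
      nlinarith)
    ((b - 5 / 2 : ℝ) : ℂ) (by
      rw [mem_closedBall_zero_iff, norm_real, Real.norm_eq_abs, abs_of_neg (by linarith)]
      linarith)).1
  have e4 : (5 / 2 + v * I + ((b - 5 / 2 : ℝ) : ℂ)) = b + v * I := by push_cast; ring
  simp only [e4] at key
  have e5 : Real.exp (η * Real.log (15 * (1 + |v|)) + C) ≤ Real.exp C * 15 * (1 + |v|) ^ ε := by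
    rw [Real.exp_add, mul_comm η, ← Real.rpow_def_of_pos (by linarith),
      Real.mul_rpow (by norm_num) (by linarith)]
    have c1 : (15 : ℝ) ^ η ≤ 15 := by
      simpa using Real.rpow_le_rpow_of_exponent_le (by norm_num : (1 : ℝ) ≤ 15)
        (by linarith : η ≤ 1)
    have c2 : (1 + |v|) ^ η ≤ (1 + |v|) ^ ε := Real.rpow_le_rpow_of_exponent_le (by linarith) e3
    calc _ ≤ 15 * (1 + |v|) ^ ε * Real.exp C := by gcongr
      _ = _ := by ring
  nlinarith

theorem tail {θ a σ A ε : ℝ} (h0 : 5 / 8 ≤ θ) (hθ : θ < 1)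
    (hz : ∀ s : ℂ, θ < s.re → riemannZeta s ≠ 0) (a0 : 1 / 2 ≤ a) (a1 : a < 5 / 8)
    (h8 : ∀ e : ℝ, 0 < e → ∃ C : ℝ, ∀ T : ℝ, 1 ≤ T →
      ∫ t in (0 : ℝ)..T, ‖riemannZeta (a + t * I)‖ ^ (8 : ℝ) ≤ C * T ^ (1 + e))
    (s0 : 5 / 8 < σ) (s1 : σ < 1) (hA : 0 ≤ A) (h : A * (θ - σ) ≤ 8 * θ - 5) (hε : 0 < ε) :
    ∃ C : ℝ, ∀ T : ℝ, 1 ≤ T →
      ∫ t in (0 : ℝ)..T, ‖riemannZeta (σ + t * I)‖ ^ A ≤ C * T ^ (1 + ε) := by
  have m1 : max σ θ < 1 := max_lt s1 hθ
  have m2 := le_max_left σ θ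
  have m3 := le_max_right σ θ
  set η := min ((1 - max σ θ) / 2) ((5 / 8 - a) / (A + 1)) with hη
  have e0 : 0 < η := lt_min (by linarith) (div_pos (by linarith) (by linarith))
  have e1 : η ≤ (1 - max σ θ) / 2 := min_le_left _ _
  have e2 : η * (A + 1) ≤ 5 / 8 - a := (le_div_iff₀ (by linarith)).1 (min_le_right _ _)
  set b := max σ θ + η with hb
  have b1 : b < 1 := by linarith
  have hA8 : A * (b - σ) ≤ 8 * (b - a) := by
    have : A * (max σ θ - σ) ≤ 8 * θ - 5 := by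
      rcases le_total σ θ with k | k
      · rwa [max_eq_right k]
      · rw [max_eq_left k]; linarith
    nlinarith
  have hd : DifferentiableOn ℂ riemannZeta (strip a b) := fun w hw =>
    (differentiableAt_riemannZeta fun k => by
      have := hw.2; rw [k, one_re] at this; linarith).differentiableWithinAt
  have hg := fun (x u : ℝ) (k1 : a ≤ x) (k2 : x ≤ b) => growth b1 x u (by linarith) k2
  obtain ⟨C1, C10, hp⟩ := point (σ := σ) (by linarith) (by linarith) (by linarith) hd hg hA hA8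
  set e := min 1 (ε / (A + 1)) with he
  have f0 : 0 < e := lt_min one_pos (by positivity)
  have f1 : e ≤ 1 := min_le_left _ _
  have f2 : e * (A + 1) ≤ ε := (le_div_iff₀ (by linarith)).1 (min_le_right _ _)
  obtain ⟨C2, C21, hl⟩ := lindel (θ := θ) (b := b) (by linarith) hz (by linarith) b1 f0
  obtain ⟨C3, h3⟩ := h8 e f0
  refine ⟨(C1 * (C2 * 2)) ^ A * (1 + 128 * |C3|), fun T hT => ?_⟩
  have hc : Continuous fun t : ℝ => ‖riemannZeta (a + t * I)‖ ^ 8 :=
    (Pool.Agent.MP_db1c88_nt.zd.continuous_line hd (x := a) le_rfl (by linarith)).norm.pow 8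
  obtain ⟨i1, i2⟩ := mean (φ := fun t : ℝ => ‖riemannZeta (a + t * I)‖ ^ 8) (C := C3)
    (D := (1 / (1 - b) + 2) ^ 8) (e := 1 + e) hc (fun _ => by positivity)
    (fun t => by rw [← mul_pow]; gcongr; exact hg a t le_rfl (by linarith))
    (fun t => by
      have : (a : ℂ) + (-t : ℝ) * I = (starRingEnd ℂ) (a + t * I) := by simp
      simp only [this, riemannZeta_conj, RCLike.norm_conj])
    (by linarith) (by linarith)
    (fun T hT => by simpa only [Real.rpow_ofNat] using h3 T hT) hT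
  have T0 : 0 < T := by linarith
  have t1 : 1 ≤ T ^ e := Real.one_le_rpow hT f0.le
  have hpt : ∀ t ∈ Icc 0 T, ‖riemannZeta (σ + t * I)‖ ^ A ≤ (C1 * (C2 * 2 * T ^ e)) ^ A *
      (1 + ∫ u : ℝ, ‖riemannZeta (a + (t + u : ℝ) * I)‖ ^ 8 * kk u) := by
    intro t ht
    refine hp t _ (by nlinarith) fun u => (hl _).trans ?_
    have u0 := abs_nonneg u
    have c1 : 1 + |t + u| ≤ 2 * (T * (1 + |u|)) := by
      have := abs_of_nonneg ht.1
      nlinarith [abs_add_le t u, ht.2]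
    have c2 : (2 : ℝ) ^ e ≤ 2 := by
      simpa using Real.rpow_le_rpow_of_exponent_le (one_le_two (α := ℝ)) f1
    have c3 : (1 + |u|) ^ e ≤ (1 + |u|) ^ 8 := by
      exact_mod_cast Real.rpow_le_rpow_of_exponent_le (by linarith : 1 ≤ 1 + |u|)
        (by linarith : e ≤ 8)
    calc C2 * (1 + |t + u|) ^ e ≤ C2 * (2 * (T * (1 + |u|))) ^ e := by gcongr
      _ = C2 * (2 ^ e * (T ^ e * (1 + |u|) ^ e)) := by
        rw [Real.mul_rpow (by norm_num) (by positivity), Real.mul_rpow T0.le (by linarith)]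
      _ ≤ C2 * (2 * (T ^ e * (1 + |u|) ^ 8)) := by gcongr
      _ = _ := by ring
  have hcs : Continuous fun t : ℝ => ‖riemannZeta (σ + t * I)‖ ^ A :=
    (Pool.Agent.MP_db1c88_nt.zd.continuous_line hd (x := σ) (by linarith) (by linarith)).norm.rpow_const fun _ => Or.inr hA
  refine (intervalIntegral.integral_mono_on T0.le (hcs.intervalIntegrable _ _)
    ((intervalIntegrable_const.add i1).const_mul _) hpt).trans ?_
  rw [intervalIntegral.integral_const_mul, intervalIntegral.integral_add intervalIntegrable_const i1,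
    intervalIntegral.integral_const, smul_eq_mul, sub_zero, mul_one, ← mul_assoc C1 (C2 * 2),
    Real.mul_rpow (x := C1 * (C2 * 2)) (by positivity) (by positivity), ← Real.rpow_mul T0.le]
  have d1 : T ≤ T ^ (1 + e) := by
    simpa using Real.rpow_le_rpow_of_exponent_le hT (by linarith : 1 ≤ 1 + e)
  have d2 : T ^ (e * A) * T ^ (1 + e) ≤ T ^ (1 + ε) := by
    rw [← Real.rpow_add T0]
    exact Real.rpow_le_rpow_of_exponent_le hT (by linarith)
  calc _ ≤ (C1 * (C2 * 2)) ^ A * T ^ (e * A) * ((1 + 128 * |C3|) * T ^ (1 + e)) := by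
        gcongr
        linarith
    _ = (C1 * (C2 * 2)) ^ A * (1 + 128 * |C3|) * (T ^ (e * A) * T ^ (1 + e)) := by ring
    _ ≤ _ := by gcongr

theorem main : ∃ δ : ℝ, 0 < δ ∧ ∀ σ A ε : ℝ, 1 / 2 < σ → σ < 1 → 0 ≤ A →
    (σ ≤ 5 / 8 → A ≤ min (48 / (37 - 50 * σ)) (min (56 / (40 - 53 * σ)) ((26 + δ) / (17 - 22 * σ)))) →
    (5 / 8 < σ → A * (17471 / 20000 - σ) ≤ 4971 / 2500) → 0 < ε →
    ∃ C : ℝ, ∀ T : ℝ, 1 ≤ T →
      ∫ t in (0 : ℝ)..T, ‖riemannZeta (σ + t * Complex.I)‖ ^ A ≤ C * T ^ (1 + ε) := by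
  obtain ⟨δ, d0, h⟩ := Off.main
  refine ⟨δ, d0, fun σ A ε s0 s1 hA h1 h2 hε => ?_⟩
  rcases le_or_gt σ (5 / 8) with k | k
  · exact h σ A ε s0 k hA (h1 k) hε
  have m0 : 0 < min δ (1 / 4) := lt_min d0 (by norm_num)
  have m1 := min_le_left δ (1 / 4)
  have m2 := min_le_right δ (1 / 4)
  refine tail (θ := 17471 / 20000) (a := 5 / 8 - min δ (1 / 4) / 176) (by norm_num) (by norm_num)
    Pool.Agent.MP_db1c88_nt.QRH.Final3.main (by linarith) (by linarith)
    (fun e he => h _ 8 e (by linarith) (by linarith) (by norm_num) ?_ he) k s1 hA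
    (by linarith [h2 k]) hε
  rw [le_min_iff, le_min_iff, le_div_iff₀ (by linarith), le_div_iff₀ (by linarith),
    le_div_iff₀ (by linarith)]
  exact ⟨by linarith, by linarith, by linarith⟩

end Pool.Agent.MP_3d0d30_nt.Off2
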